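import Mathlib

namespace Pool.Agent.Results.MP_0f2923_nt.NullValues

open MeasureTheory Set
open scoped Pointwise

/-- the digit set -/
def A : Finset ℤ := {0, 8, 12, 18, 32, 34}

/-- the set of values `2a - b` with `a, b ∈ A` -/
def C : Finset ℤ := (A ×ˢ A).image (fun p => 2 * p.1 - p.2)

lemma card_C : C.card = 29 := by decide +kernel

lemma C_bound : ∀ c ∈ C, |c| ≤ 100 := by decide +kernel

lemma cover_aux : ∀ r : Fin 31, ∃ a ∈ A, ∃ b ∈ A, ((r : ℕ) : ℤ) = (a - b) % 31 := by decide +kernel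

lemma cover (n : ℤ) : ∃ a ∈ A, ∃ b ∈ A, ∃ n' : ℤ, n = 31 * n' + (a - b) := by
  have h0 : 0 ≤ n % 31 := Int.emod_nonneg _ (by norm_num)
  have h1 : n % 31 < 31 := Int.emod_lt_of_pos _ (by norm_num)
  obtain ⟨a, ha, b, hb, hab⟩ := cover_aux ⟨(n % 31).toNat, by omega⟩
  refine ⟨a, ha, b, hb, ?_⟩
  have h2 : ((n % 31).toNat : ℤ) = n % 31 := Int.toNat_of_nonneg h0
  simp only [h2] at hab
  have h3 : (31 : ℤ) ∣ n - (a - b) := Int.ModEq.dvd (Int.ModEq.symm hab)
  obtain ⟨k, hk⟩ := h3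
  exact ⟨k, by linarith⟩

/-- value of a digit sequence -/
noncomputable def val (c : ℕ → ℤ) : ℝ := ∑' i, (c i : ℝ) / 31 ^ (i + 1)

lemma summable_of_bound {c : ℕ → ℤ} (hc : ∀ i, |c i| ≤ 100) :
    Summable (fun i => (c i : ℝ) / 31 ^ (i + 1)) := by
  refine Summable.of_norm_bounded (g := fun i => 100 * (1 / 31 : ℝ) ^ (i + 1)) ?_ ?_
  · exact ((summable_nat_add_iff 1).2
      (summable_geometric_of_lt_one (by norm_num) (by norm_num))).mul_left 100
  · intro i
    rw [Real.norm_eq_abs, abs_div, abs_of_pos (by positivity : (0 : ℝ) < 31 ^ (i + 1)),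
      one_div_pow, mul_one_div]
    apply div_le_div_of_nonneg_right _ (by positivity)
    have := hc i
    rw [← Int.cast_abs]
    exact_mod_cast this

lemma A_bound : ∀ a ∈ A, |a| ≤ 100 := by decide +kernel

lemma diff_bound : ∀ a ∈ A, ∀ b ∈ A, |a - b| ≤ 100 := by decide +kernel

lemma val_bound {c : ℕ → ℤ} (hc : ∀ i, |c i| ≤ 100) : |val c| ≤ 100 := by
  have hs := summable_of_bound hc
  have hg : HasSum (fun i : ℕ => 100 * (1 / 31 : ℝ) ^ (i + 1)) (100 / 30) := by
    have h1 := (hasSum_geometric_of_lt_one (r := (1 / 31 : ℝ)) (by norm_num) (by norm_num))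
    have h2 := (h1.mul_left (1 / 31 : ℝ)).mul_left 100
    have e1 : (fun i : ℕ => 100 * (1 / 31 : ℝ) ^ (i + 1))
        = fun i => 100 * (1 / 31 * (1 / 31 : ℝ) ^ i) := by
      funext i; rw [pow_succ]; ring
    have e2 : (100 / 30 : ℝ) = 100 * (1 / 31 * (1 - 1 / 31)⁻¹) := by norm_num
    rw [e1, e2]
    exact h2
  have h1 : ‖val c‖ ≤ 100 / 30 := by
    refine hs.hasSum.norm_le_of_bounded hg ?_
    intro i
    rw [Real.norm_eq_abs, abs_div, abs_of_pos (by positivity : (0 : ℝ) < 31 ^ (i + 1)),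
      one_div_pow, mul_one_div]
    apply div_le_div_of_nonneg_right _ (by positivity)
    have := hc i
    rw [← Int.cast_abs]
    exact_mod_cast this
  rw [Real.norm_eq_abs] at h1
  linarith

lemma val_succ {c : ℕ → ℤ} (hc : ∀ i, |c i| ≤ 100) :
    val c = ((c 0 : ℝ) + val (fun i => c (i + 1))) / 31 := by
  have hs := summable_of_bound hc
  unfold val
  rw [hs.tsum_eq_zero_add, add_div]
  congr 1
  · norm_num
  · rw [← tsum_div_const]
    congr 1
    ext i
    rw [pow_succ (31 : ℝ) (i + 1)]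
    field_simp

/-- the set of all values with digits in `C` -/
def X : Set ℝ := {x | ∃ c : ℕ → ℤ, (∀ i, c i ∈ C) ∧ x = val c}

lemma X_subset : X ⊆ ⋃ c ∈ C, (fun x : ℝ => 31 * x + (-(c : ℝ))) ⁻¹' X := by
  rintro x ⟨c, hc, rfl⟩
  simp only [mem_iUnion]
  refine ⟨c 0, hc 0, ?_⟩
  refine ⟨fun i => c (i + 1), fun i => hc _, ?_⟩
  have := val_succ (c := c) (fun i => C_bound _ (hc i))
  simp only
  rw [this]
  ring

lemma vol_X_lt_top : volume X < ⊤ := by
  refine lt_of_le_of_lt (measure_mono (t := Icc (-100 : ℝ) 100) ?_) (by simp)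
  rintro x ⟨c, hc, rfl⟩
  exact abs_le.1 (val_bound fun i => C_bound _ (hc i))

lemma vol_preimage (c : ℤ) : volume ((fun x : ℝ => 31 * x + (-(c : ℝ))) ⁻¹' X)
    = ENNReal.ofReal (1 / 31) * volume X := by
  have h1 : (fun x : ℝ => 31 * x + (-(c : ℝ))) ⁻¹' X
      = (fun x : ℝ => 31 * x) ⁻¹' ((fun x : ℝ => x + (-(c : ℝ))) ⁻¹' X) := rfl
  rw [h1, Real.volume_preimage_mul_left (by norm_num), measure_preimage_add_right]
  congr 2
  norm_num

lemma vol_X : volume X = 0 := by
  have h1 : volume X ≤ 29 * (ENNReal.ofReal (1 / 31) * volume X) := by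
    calc volume X ≤ volume (⋃ c ∈ C, (fun x : ℝ => 31 * x + (-(c : ℝ))) ⁻¹' X) :=
          measure_mono X_subset
      _ ≤ ∑ c ∈ C, volume ((fun x : ℝ => 31 * x + (-(c : ℝ))) ⁻¹' X) :=
          measure_biUnion_finset_le _ _
      _ = ∑ c ∈ C, ENNReal.ofReal (1 / 31) * volume X :=
          Finset.sum_congr rfl fun c _ => vol_preimage c
      _ = 29 * (ENNReal.ofReal (1 / 31) * volume X) := by
          rw [Finset.sum_const, card_C, nsmul_eq_mul]
          norm_num
  by_contra h0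
  have hfin := vol_X_lt_top.ne
  have h2 : (volume X).toReal ≤ 29 * (1 / 31 * (volume X).toReal) := by
    have h3 := ENNReal.toReal_mono (by
      apply ENNReal.mul_ne_top (by norm_num)
      exact ENNReal.mul_ne_top ENNReal.ofReal_ne_top hfin) h1
    rw [ENNReal.toReal_mul, ENNReal.toReal_mul, ENNReal.toReal_ofReal (by norm_num)] at h3
    simpa using h3
  have h4 : 0 < (volume X).toReal := ENNReal.toReal_pos h0 hfin
  linarith

/-- the compact set of values with digits in `A` -/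
def E0 : Set ℝ := {x | ∃ a : ℕ → ℤ, (∀ i, a i ∈ A) ∧ x = val a}

/-- The set `E`. -/
def E : Set ℝ := {x | ∃ y ∈ E0, ∃ n : ℕ, x = y + (n + 1)}

lemma A_nonneg : ∀ a ∈ A, 0 ≤ a := by decide +kernel

lemma E_pos : E ⊆ Ioi 0 := by
  rintro x ⟨y, ⟨a, ha, rfl⟩, n, rfl⟩
  have : 0 ≤ val a := tsum_nonneg fun i =>
    div_nonneg (by exact_mod_cast A_nonneg _ (ha i)) (by positivity)
  have h2 : (0 : ℝ) ≤ n := Nat.cast_nonneg n
  simp only [mem_Ioi]
  linarith

lemma phi_null : volume (image2 (fun e₁ e₂ : ℝ => 2 * e₁ - e₂) E E) = 0 := by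
  have hsub : image2 (fun e₁ e₂ : ℝ => 2 * e₁ - e₂) E E ⊆
      ⋃ k : ℤ, (fun x : ℝ => x + (-(k : ℝ))) ⁻¹' X := by
    rintro z ⟨_, ⟨_, ⟨a, ha, rfl⟩, n, rfl⟩, _, ⟨_, ⟨b, hb, rfl⟩, n', rfl⟩, rfl⟩
    simp only [mem_iUnion, mem_preimage]
    refine ⟨2 * (n + 1) - (n' + 1), fun i => 2 * a i - b i, ?_, ?_⟩
    · intro i
      exact Finset.mem_image.2 ⟨(a i, b i), Finset.mem_product.2 ⟨ha i, hb i⟩, rfl⟩
    · have sa := summable_of_bound fun i => A_bound _ (ha i)
      have sb := summable_of_bound fun i => A_bound _ (hb i)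
      have : val (fun i => 2 * a i - b i) = 2 * val a - val b := by
        unfold val
        rw [← tsum_mul_left, ← (sa.mul_left 2).tsum_sub sb]
        congr 1
        ext i
        push_cast
        ring
      rw [this]
      push_cast
      ring
  refine measure_mono_null hsub ?_
  rw [measure_iUnion_null_iff]
  intro k
  rw [measure_preimage_add_right]
  exact vol_X

/-- compact parameter space -/
noncomputable def diffMap (w : ℕ → (A × A)) : ℝ := val (fun i => ((w i).1 : ℤ) - ((w i).2 : ℤ))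

lemma continuous_diffMap : Continuous diffMap := by
  unfold diffMap val
  refine continuous_tsum (u := fun i => 100 * (1 / 31 : ℝ) ^ (i + 1)) ?_ ?_ ?_
  · intro i
    have h1 : Continuous (fun w : ℕ → (A × A) => w i) := continuous_apply i
    have h2 : Continuous (fun p : A × A => ((((p.1 : ℤ) - (p.2 : ℤ) : ℤ) : ℝ)) / 31 ^ (i + 1)) :=
      continuous_of_discreteTopology
    exact h2.comp h1
  · exact ((summable_nat_add_iff 1).2
      (summable_geometric_of_lt_one (by norm_num) (by norm_num))).mul_left 100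
  · intro i w
    rw [Real.norm_eq_abs, abs_div, abs_of_pos (by positivity : (0 : ℝ) < 31 ^ (i + 1)),
      one_div_pow, mul_one_div]
    apply div_le_div_of_nonneg_right _ (by positivity)
    have := diff_bound _ (w i).1.2 _ (w i).2.2
    rw [← Int.cast_abs]
    exact_mod_cast this

/-- the set of all differences modulo integers -/
def D : Set ℝ := range diffMap + range ((↑) : ℤ → ℝ)

lemma isClosed_D : IsClosed D := by
  have h1 : IsCompact (range diffMap) := isCompact_range continuous_diffMap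
  have h2 : IsClosed (range ((↑) : ℤ → ℝ)) := Int.isClosedEmbedding_coe_real.isClosed_range
  exact h2.add_left_of_isCompact h1

lemma zero_mem_A : (0 : ℤ) ∈ A := by decide +kernel

lemma mem_D (k : ℕ) : ∀ n : ℤ, ∃ w : ℕ → (A × A), (∀ i, k ≤ i → (w i).1 = (w i).2) ∧
    ∃ z : ℤ, (n : ℝ) / 31 ^ k = diffMap w + z := by
  induction k with
  | zero =>
    intro n
    refine ⟨fun _ => (⟨0, zero_mem_A⟩, ⟨0, zero_mem_A⟩), fun _ _ => rfl, n, ?_⟩
    simp [diffMap, val]
  | succ k ih =>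
    intro n
    obtain ⟨a, ha, b, hb, n', hn⟩ := cover n
    obtain ⟨w, hw, z, hz⟩ := ih n'
    refine ⟨fun i => if i = k then (⟨a, ha⟩, ⟨b, hb⟩) else w i, ?_, z, ?_⟩
    · intro i hi
      have : i ≠ k := by omega
      simp only [this, if_false]
      exact hw i (by omega)
    · have hval : diffMap (fun i => if i = k then (⟨a, ha⟩, ⟨b, hb⟩) else w i)
          = diffMap w + ((a - b : ℤ) : ℝ) / 31 ^ (k + 1) := by
        unfold diffMap val
        have hwk : ((w k).1 : ℤ) - ((w k).2 : ℤ) = 0 := by rw [hw k le_rfl]; ring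
        have s1 : Summable (fun i => ((((w i).1 : ℤ) - ((w i).2 : ℤ) : ℤ) : ℝ) / 31 ^ (i + 1)) :=
          summable_of_bound fun i => diff_bound _ (w i).1.2 _ (w i).2.2
        have s2 : HasSum (fun i => if i = k then ((a - b : ℤ) : ℝ) / 31 ^ (k + 1) else 0)
            (((a - b : ℤ) : ℝ) / 31 ^ (k + 1)) := hasSum_ite_eq k _
        rw [← s2.tsum_eq, ← s1.tsum_add s2.summable]
        congr 1
        ext i
        by_cases hi : i = k
        · subst hi
          simp only [if_true, hwk]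
          simp
        · simp only [hi, if_false, add_zero]
      rw [hval, hn]
      have : (((31 * n' + (a - b) : ℤ)) : ℝ) / 31 ^ (k + 1)
          = (n' : ℝ) / 31 ^ k + ((a - b : ℤ) : ℝ) / 31 ^ (k + 1) := by
        push_cast
        rw [pow_succ]
        field_simp
      rw [this, hz]
      ring

lemma D_univ (t : ℝ) : t ∈ D := by
  have hlim : Filter.Tendsto (fun k : ℕ => ((⌊t * 31 ^ k⌋ : ℤ) : ℝ) / 31 ^ k) Filter.atTop
      (nhds t) := by
    rw [tendsto_iff_dist_tendsto_zero]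
    refine squeeze_zero (fun _ => dist_nonneg) (g := fun k => (1 / 31 : ℝ) ^ k) ?_
      (tendsto_pow_atTop_nhds_zero_of_lt_one (by norm_num) (by norm_num))
    intro k
    have hp : (0 : ℝ) < 31 ^ k := by positivity
    have h1 := Int.floor_le (t * 31 ^ k)
    have h2 := Int.lt_floor_add_one (t * 31 ^ k)
    rw [Real.dist_eq, abs_le, one_div_pow]
    constructor
    · rw [neg_le_sub_iff_le_add, ← add_div, le_div_iff₀ hp]
      linarith
    · have : ((⌊t * 31 ^ k⌋ : ℤ) : ℝ) / 31 ^ k ≤ t := by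
        rw [div_le_iff₀ hp]; exact h1
      have : (0 : ℝ) ≤ 1 / 31 ^ k := by positivity
      linarith
  refine isClosed_D.mem_of_tendsto hlim (Filter.Eventually.of_forall fun k => ?_)
  obtain ⟨w, _, z, hz⟩ := mem_D k ⌊t * 31 ^ k⌋
  rw [hz]
  exact Set.add_mem_add ⟨w, rfl⟩ ⟨z, rfl⟩

lemma diff_univ : image2 (fun e₁ e₂ : ℝ => e₁ - e₂) E E = univ := by
  rw [eq_univ_iff_forall]
  intro t
  obtain ⟨_, ⟨w, rfl⟩, _, ⟨z, rfl⟩, hz⟩ := D_univ t
  simp only at hz
  have sa := summable_of_bound (c := fun i => ((w i).1 : ℤ)) fun i => A_bound _ (w i).1.2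
  have sb := summable_of_bound (c := fun i => ((w i).2 : ℤ)) fun i => A_bound _ (w i).2.2
  have hv : diffMap w = val (fun i => ((w i).1 : ℤ)) - val (fun i => ((w i).2 : ℤ)) := by
    unfold diffMap val
    rw [← sa.tsum_sub sb]
    congr 1
    ext i
    push_cast
    ring
  refine ⟨val (fun i => ((w i).1 : ℤ)) + ((z.toNat : ℕ) + 1),
    ⟨_, ⟨_, fun i => (w i).1.2, rfl⟩, z.toNat, rfl⟩,
    val (fun i => ((w i).2 : ℤ)) + (((-z).toNat : ℕ) + 1),
    ⟨_, ⟨_, fun i => (w i).2.2, rfl⟩, (-z).toNat, rfl⟩, ?_⟩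
  simp only
  have hz' : ((z.toNat : ℕ) : ℝ) - (((-z).toNat : ℕ) : ℝ) = z := by
    have : ((z.toNat : ℕ) : ℤ) - (((-z).toNat : ℕ) : ℤ) = z := by omega
    exact_mod_cast this
  rw [← hz, hv]
  linarith

/-- There is a set `E` of positive reals with `E - E = ℝ` for which
`{2 e₁ - e₂ : e₁, e₂ ∈ E}` has Lebesgue measure zero. -/
theorem result : ∃ E : Set ℝ, (∀ x ∈ E, 0 < x) ∧
    image2 (fun e₁ e₂ : ℝ => e₁ - e₂) E E = univ ∧
    volume (image2 (fun e₁ e₂ : ℝ => 2 * e₁ - e₂) E E) = 0 :=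
  ⟨E, fun _ hx => E_pos hx, diff_univ, phi_null⟩

end Pool.Agent.Results.MP_0f2923_nt.NullValues
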